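import Mathlib
import Pool.Agent.H98.NI.Hld2

/-!
# Complex scalars: a modulus of continuity of `n(ℓ_p)` as a function of `1 / p`

`numRadius` and `numIndex` (the numerical radius of an operator and the numerical index of a
complex normed space) are defined in `Pool/Graph/R_seed8/H148R3/NIDefs.lean`.

Outline of the proof.

* `(1 - 16 / K) n(ℓ_p^N) ≤ n(ℓ_p) ≤ n(ℓ_p^N)` with `N = (2 K + 1)^4` (for the first inequality see
  also `ComplexFiniteDim`; the second holds since `ℓ_p^N` is a summand of `ℓ_p`).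
* If `X` and `Y` are isomorphic with norms at most `1 + η` in both directions then
  `n(Y) ≤ n(X) + 17 √η`: for `‖T‖ = 1` and `t = √η` the identity
  `1 + t T = (1 - t² T²) (1 - t T)⁻¹` and `‖(1 - t T)⁻¹‖ ≤ (1 - t v(T))⁻¹` bound `‖1 + t T‖`.
* With `θ = |1/p - 1/r|` the identity between `ℓ_p^N` and `ℓ_r^N` has norm at most
  `N^θ ≤ 1 + 2 θ log N` in both directions if `θ log N` is small.  Hence
  `|n(ℓ_p) - n(ℓ_r)| ≤ 16 / K + 17 (8 θ log(2 K + 1))^{1/2}`; choose `K` of order `θ^{-1/2}`.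
-/

set_option autoImplicit false

open scoped ENNReal
open MeasureTheory

namespace Pool.Agent.Results.MP_95d40a_an.ComplexContinuity

open Pool.Agent.H148R3.NI

/-- For complex scalars and `1 < p, r < ∞`, `p ≠ r`, with `ℓ_p = L_p` of the counting measure on
the natural numbers: `|n(ℓ_p) - n(ℓ_r)| ≤ 86 (θ (1 - log θ))^{1/2}`, where `θ = |1/p - 1/r|`. -/
theorem result (p r : ℝ≥0∞) [Fact (1 ≤ p)] [Fact (1 ≤ r)] (hp1 : 1 < p) (hp : p ≠ ∞)
    (hr1 : 1 < r) (hr : r ≠ ∞) (_ : p ≠ r) :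
    |numIndex (Lp ℂ p (Measure.count : Measure ℕ)) -
      numIndex (Lp ℂ r (Measure.count : Measure ℕ))| ≤
        86 * √(|1 / p.toReal - 1 / r.toReal| *
          (1 - Real.log |1 / p.toReal - 1 / r.toReal|)) :=
  Pool.Agent.H98.NIL.hoelder3 hp1 hp hr1 hr

end Pool.Agent.Results.MP_95d40a_an.ComplexContinuity
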