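import Mathlib
import Pool.Agent.H98.NI.Mono
import Pool.Agent.H98.NI.Uni2

/-!
# Complex scalars: finite dimensional approximation of `n(L_p(μ))` with a rate independent of `p`

`numRadius` and `numIndex` (the numerical radius of an operator and the numerical index of a
complex normed space) are defined in `Pool/Graph/R_seed8/H148R3/NIDefs.lean`.

Outline of the proof.  Let `‖T‖ = 1`, `‖x‖ ≤ 1`, `‖T x‖` close to `1`, `y = T x`, and let `φ(ω)` be
the one of `x(ω)`, `y(ω)` with the larger modulus.  One of the functions `x / φ`, `y / φ` is `1` and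
the other one has a value in the unit disc; rounding its real and imaginary part to multiples of
`1 / K` gives a partition into at most `N = 2 (2 K + 1)^2` sets `A_i`, and `x`, `y` are within
`4 / K` of the span of the `N` disjoint functions `φ 1_{A_i}`, which is a copy of `ℓ_p^m`, `m ≤ N`,
with a norm one projection.  Compressing `T` gives the inequality with `n(ℓ_p^m)`, and
`n(ℓ_p^N) ≤ n(ℓ_p^m)`.
-/

set_option autoImplicit false

open scoped ENNReal
open MeasureTheory

namespace Pool.Agent.Results.MP_95d40a_an.ComplexFiniteDim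

open Pool.Agent.H148R3.NI

universe u

/-- For complex scalars, `1 < p < ∞`, every measure space with `L_p(μ) ≠ 0` and every `K ≥ 1`:
`(1 - 16 / K) n(ℓ_p^N) ≤ n(L_p(μ))` with `N = 2 (2 K + 1)^2`. -/
theorem result {Ω : Type u} [MeasurableSpace Ω] (μ : Measure Ω) (p : ℝ≥0∞) [Fact (1 ≤ p)]
    (h1 : 1 < p) (hp : p ≠ ∞) [Nontrivial (Lp ℂ p μ)] (K : ℕ) (hK : 1 ≤ K) :
    (1 - 16 / (K : ℝ)) * numIndex (lp (fun _ : Fin (2 * (2 * K + 1) ^ 2) => ℂ) p) ≤
      numIndex (Lp ℂ p μ) := by
  have h : 1 < p.toReal := by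
    rw [← ENNReal.toReal_one]
    exact (ENNReal.toReal_lt_toReal ENNReal.one_ne_top hp).2 h1
  have hne : Nonempty (Fin (2 * (2 * K + 1) ^ 2)) := ⟨⟨0, by positivity⟩⟩
  have hnt : Nontrivial (lp (fun _ : Fin (2 * (2 * K + 1) ^ 2) => ℂ) p) := by
    classical
    obtain ⟨i⟩ := hne
    refine ⟨lp.single p i (1 : ℂ), 0, fun h0 => ?_⟩
    have := congrArg (fun f : lp (fun _ : Fin (2 * (2 * K + 1) ^ 2) => ℂ) p => f i) h0
    simp at this
  refine Pool.Agent.H98.NIL.uniform_reduction2 hp h hK
    (le_numIndex fun T _ => numRadius_nonneg T) fun ι _ _ hι => ?_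
  have f : ι ↪ Fin (2 * (2 * K + 1) ^ 2) :=
    (Fintype.equivFin ι).toEmbedding.trans (Fin.castLEEmb hι)
  exact Pool.Agent.H98.NIL.mono f (by linarith)

end Pool.Agent.Results.MP_95d40a_an.ComplexFiniteDim
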