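import Mathlib
import Pool.Agent.H98.NI.Low

/-!
# Complex scalars: a lower bound for `n(L_p(μ))` above `1 / e`, uniformly in `p` and `μ`

`numRadius` and `numIndex` (the numerical radius of an operator and the numerical index of a
complex normed space) are defined in `Pool/Graph/R_seed8/H148R3/NIDefs.lean`.

Outline of the proof.  Let `s = max(p, q)`, `v = v(T)`.  For `N > R ‖T‖` the function
`F(z) = (1 - z T / N)^{-N}` is analytic near the disc `|z| ≤ R`, `F(0) = 1`, `F'(0) = T` and
`‖F(z)‖ ≤ (1 - R v / N)^{-N}` on `|z| = R`, because `‖(1 - w T) x‖ ≥ (1 - |w| v) ‖x‖`.  If `p ≥ 2`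
then `L_p` satisfies Clarkson's inequality with exponent `s = p`; applied to `f(z)` and `f(-z)`,
`f(z) = F(z) x`, and combined with the maximum principle for the `ℓ_s(X, X)`-valued function
`(even part of f, R odd part of f / z)`, it gives `‖x‖^s + R^s ‖T x‖^s ≤ (1 - R v / N)^{-N s}`.
For `p < 2` one does the same with `f(z) = φ ∘ F(z)` in the dual space, whose norm satisfies
Clarkson's inequality with exponent `s = q`.  Letting `N → ∞`, `1 + R^s ≤ e^{R v s}` if `‖T‖ = 1`.

For large `max(p, q)` the numerical index of every `ℓ_p(ι)` is close to `1` (`ComplexLimit` in the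
library), and `Pool/Agent/H98/NI/Red2.lean` shows that a lower bound for all `ℓ_p(ι)`, `ι` finite,
is a lower bound for all `L_p(μ)`: for `T` on `L_p(μ)` and `x` with `‖T x‖` close to `‖T‖`,
approximate `x` and `T x` in the span of finitely many disjoint indicator functions, a copy of
`ℓ_p(ι)` on which there is a norm one projection, and compress `T`.
-/

set_option autoImplicit false

open scoped ENNReal
open MeasureTheory

namespace Pool.Agent.Results.MP_95d40a_an.ComplexLowerBound

open Pool.Agent.H148R3.NI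

universe u

/-- There is a constant `K` such that for complex scalars, all `1 < p < ∞` and all measure spaces
with `L_p(μ) ≠ 0`, with `s = min(max(p, q), K)`: `n(L_p(μ)) ≥ log(1 + R^s) / (s R)` for all
`R > 0`; in particular (`R = e`) `n(L_p(μ)) ≥ 1/e + log(1 + e^{-s}) / (s e)`, which is at least
the constant `1/e + log(1 + e^{-K}) / (K e)`. -/
theorem result : ∃ K : ℝ, 1 < K ∧ ∀ (p : ℝ≥0∞) [Fact (1 ≤ p)], 1 < p → p ≠ ∞ →
    ∀ {Ω : Type u} [MeasurableSpace Ω] (μ : Measure Ω) [Nontrivial (Lp ℂ p μ)] (s : ℝ),
      s = min (max p.toReal (p.toReal / (p.toReal - 1))) K →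
        (∀ R : ℝ, 0 < R → Real.log (1 + R ^ s) / (s * R) ≤ numIndex (Lp ℂ p μ)) ∧
        Real.exp (-1) + Real.log (1 + Real.exp (-s)) / (s * Real.exp 1) ≤
          numIndex (Lp ℂ p μ) ∧
        Real.exp (-1) + Real.log (1 + Real.exp (-K)) / (K * Real.exp 1) ≤
          numIndex (Lp ℂ p μ) :=
  Pool.Agent.H98.NIL.lower_all

end Pool.Agent.Results.MP_95d40a_an.ComplexLowerBound
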