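import Mathlib
import Pool.Agent.H98.NI.Two
import Pool.Agent.H98.NI.Upper

/-!
# Complex scalars: `n(L_p(μ)) → 1 / 2` as `p → 2`, uniformly in the measure space

`numRadius` and `numIndex` (the numerical radius of an operator and the numerical index of a
complex normed space) are defined in `Pool/Graph/R_seed8/H148R3/NIDefs.lean`.

Outline of the proof of the lower bound.  Let `δ = |p - 2| ≤ 1/2` and `J(a) = |a|^{p-2} conj a`.
Since `|r^{p-1} - r| ≤ 2 δ` on `[0, 2]`, homogeneity gives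
`|J(a + b) - J(a) - J(b)| ≤ 4 δ (|a|^{p-1} + |b|^{p-1})`, so by Hölder the duality map
`x ↦ x* = J ∘ x` of `L_p` is additive up to `4 δ (‖x‖^{p-1} + ‖y‖^{p-1})`.  If `‖T‖ = 1`,
`‖x‖ = 1`, `y = T x / ‖T x‖`, then polarisation over the four points `x + w y`, `w^4 = 1`, gives
`4 ‖T x‖ = 4 |y*(T x)| ≤ v(T) ∑_w ‖x + w y‖^p + 64 δ`, and by Clarkson's inequalities the sum is at
most `4 · 2^{max(p-1,1)}`.  Hence `n(L_p) ≥ (1 - 16 δ) / 2^{max(p-1,1)}`.  The upper bound comes
from a rank one operator.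
-/

set_option autoImplicit false

open scoped ENNReal
open MeasureTheory

namespace Pool.Agent.Results.MP_95d40a_an.ComplexNearTwo

open Pool.Agent.H148R3.NI

universe u

/-- For complex scalars, `|p - 2| ≤ 1/2` and every measure space with two disjoint sets of positive
finite measure (that is, with `dim L_p(μ) ≥ 2`): `|n(L_p(μ)) - 1/2| ≤ 9 |p - 2|`. -/
theorem result {Ω : Type u} [MeasurableSpace Ω] (μ : Measure Ω) (p : ℝ≥0∞) [Fact (1 ≤ p)]
    (hp : p ≠ ∞) (h2 : |p.toReal - 2| ≤ 1 / 2)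
    (hd : ∃ A B : Set Ω, MeasurableSet A ∧ MeasurableSet B ∧ Disjoint A B ∧ μ A ≠ 0 ∧ μ A ≠ ∞ ∧
      μ B ≠ 0 ∧ μ B ≠ ∞) :
    |numIndex (Lp ℂ p μ) - 1 / 2| ≤ 9 * |p.toReal - 2| := by
  obtain ⟨A, B, hA, hB, hAB, hA0, hA1, hB0, hB1⟩ := hd
  have h2' := abs_le.1 h2
  have h1 : 1 < p.toReal := by linarith
  have hp0 : 0 < p.toReal := by linarith
  have hpz : p ≠ 0 := fun h => by rw [h] at hp0; simp at hp0
  have hnt : Nontrivial (Lp ℂ p μ) := by
    refine ⟨indicatorConstLp p hA hA1 (1 : ℂ), 0, fun h => ?_⟩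
    have h3 : ‖indicatorConstLp p hA hA1 (1 : ℂ)‖ = 0 := by rw [h, norm_zero]
    rw [norm_indicatorConstLp hpz hp, norm_one, one_mul] at h3
    have h4 : 0 < (μ.real A) ^ (1 / p.toReal) :=
      Real.rpow_pos_of_pos (ENNReal.toReal_pos hA0 hA1) _
    linarith
  have hl := Pool.Agent.H98.NIL.near_two (μ := μ) hp h1 h2
  have hu := Pool.Agent.H98.NIL.upper hA hB hAB hA0 hA1 hB0 hB1 hp h1
  have hδ : 0 ≤ |p.toReal - 2| := abs_nonneg _
  have hδ1 : p.toReal - 2 ≤ |p.toReal - 2| := le_abs_self _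
  have hδ2 : -(p.toReal - 2) ≤ |p.toReal - 2| := neg_le_abs _
  set δ := |p.toReal - 2| with hδd
  rw [abs_le]
  constructor
  · have hC0 : (0 : ℝ) < 2 ^ max (p.toReal - 1) 1 := by positivity
    have hC : (2 : ℝ) ^ max (p.toReal - 1) 1 * (1 - δ) ≤ 2 := by
      have h3 : (2 : ℝ) ^ max (p.toReal - 1) 1 ≤ 2 ^ (1 + δ) :=
        Real.rpow_le_rpow_of_exponent_le (by norm_num)
          (max_le (by linarith) (by linarith))
      have h4 : (2 : ℝ) ^ (1 + δ) = 2 * Real.exp (Real.log 2 * δ) := by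
        rw [Real.rpow_add (by norm_num), Real.rpow_one, Real.rpow_def_of_pos (by norm_num)]
      have h5 : 1 - δ ≤ Real.exp (-(Real.log 2 * δ)) := by
        have h6 := Real.add_one_le_exp (-(Real.log 2 * δ))
        have h7 : Real.log 2 ≤ 1 := by
          have := Real.log_two_lt_d9
          linarith
        have h8 := mul_le_mul_of_nonneg_right h7 hδ
        linarith
      have h9 : Real.exp (Real.log 2 * δ) * Real.exp (-(Real.log 2 * δ)) = 1 := by
        rw [← Real.exp_add, add_neg_cancel, Real.exp_zero]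
      have h10 : 0 < Real.exp (Real.log 2 * δ) := Real.exp_pos _
      have h11 : 0 ≤ 1 - δ := by linarith
      calc (2 : ℝ) ^ max (p.toReal - 1) 1 * (1 - δ) ≤ 2 ^ (1 + δ) * (1 - δ) :=
            mul_le_mul_of_nonneg_right h3 h11
        _ = 2 * (Real.exp (Real.log 2 * δ) * (1 - δ)) := by rw [h4, mul_assoc]
        _ ≤ 2 * (Real.exp (Real.log 2 * δ) * Real.exp (-(Real.log 2 * δ))) := by
            apply mul_le_mul_of_nonneg_left _ (by norm_num)
            exact mul_le_mul_of_nonneg_left h5 h10.le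
        _ = 2 := by rw [h9, mul_one]
    have hn : 0 ≤ numIndex (Lp ℂ p μ) := le_numIndex fun T _ => numRadius_nonneg T
    by_cases h16 : 16 * δ ≤ 1
    · have h3 : 1 / 2 - 9 * δ ≤ (1 - 16 * δ) / 2 ^ max (p.toReal - 1) 1 := by
        rw [le_div_iff₀ hC0]
        by_cases h9 : 1 / 2 - 9 * δ ≤ 0
        · have := mul_nonneg (neg_nonneg.2 h9) hC0.le
          nlinarith
        · have h10 : (1 - δ) / 2 * (2 : ℝ) ^ max (p.toReal - 1) 1 ≤ 1 := by linarith
          have h11 : 1 / 2 - 9 * δ ≤ (1 - 16 * δ) * ((1 - δ) / 2) := by nlinarith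
          calc (1 / 2 - 9 * δ) * 2 ^ max (p.toReal - 1) 1 ≤
                (1 - 16 * δ) * ((1 - δ) / 2) * 2 ^ max (p.toReal - 1) 1 :=
                mul_le_mul_of_nonneg_right h11 hC0.le
            _ = (1 - 16 * δ) * ((1 - δ) / 2 * 2 ^ max (p.toReal - 1) 1) := by ring
            _ ≤ (1 - 16 * δ) * 1 := mul_le_mul_of_nonneg_left h10 (by linarith)
            _ = _ := mul_one _
      linarith
    · rw [not_le] at h16
      linarith
  · have h3 : max (1 / p.toReal) (1 - 1 / p.toReal) ≤ 1 / 2 + 9 * δ := by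
      apply max_le
      · rw [div_le_iff₀ hp0]
        nlinarith
      · have h4 : 1 / 2 - 9 * δ ≤ 1 / p.toReal := by
          rw [le_div_iff₀ hp0]
          nlinarith
        linarith
    linarith

end Pool.Agent.Results.MP_95d40a_an.ComplexNearTwo
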